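import Pool.Agent.Q80.DG.SchlMain

/-!
The dual of Schlumprecht's space has an equivalent norm for which its canonical basis is 1-greedy.

The definitions `restr`, `values`, `IsSchlumprecht`, `IsCompletion`, `IsRenorming` are in the file
`Pool/Agent/Q80/DG/SchlDefs.lean`.
-/

set_option autoImplicit false

namespace Pool.Agent.Results.MP_439cf8_an.GreedyRenorming

open Pool.Agent.Q80.SchlDefs

/-- The functionals `es j` (the coordinate functionals of `e`) are 1-greedy for the norm `N` on the dual space: for every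
`f`, every finite greedy set `A` of `f` and every combination of `es j`, `j ∈ B`, with `|B| ≤ |A|`, one has
`N (f - ∑_{j ∈ A} f(e_j) es_j) ≤ N (f - ∑_{j ∈ B} b_j es_j)`. -/
def IsOneGreedy {S : Type} [NormedAddCommGroup S] [NormedSpace ℝ S] (e : ℕ → S) (es : ℕ → StrongDual ℝ S)
    (N : StrongDual ℝ S → ℝ) : Prop :=
  ∀ (f : StrongDual ℝ S) (A : Finset ℕ), (∀ i ∈ A, ∀ j, j ∉ A → |f (e j)| ≤ |f (e i)|) →
    ∀ (B : Finset ℕ) (b : ℕ → ℝ), B.card ≤ A.card →
      N (f - ∑ j ∈ A, f (e j) • es j) ≤ N (f - ∑ j ∈ B, b j • es j)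

/-- **Answer to Q1.** There is exactly one norm `σ` on `c₀₀` which satisfies the implicit equation; it has a completion,
and for every completion `S` with unit vector basis `e` the coordinate functionals `es` exist and are 1-greedy for some
norm on the dual space which is equivalent to the dual norm. -/
theorem result : (∃! σ : (ℕ →₀ ℝ) → ℝ, IsSchlumprecht σ) ∧ ∀ σ : (ℕ →₀ ℝ) → ℝ, IsSchlumprecht σ →
    (∃ (S : Type) (_ : NormedAddCommGroup S) (_ : NormedSpace ℝ S) (e : ℕ → S), IsCompletion σ S e) ∧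
    ∀ (S : Type) [NormedAddCommGroup S] [NormedSpace ℝ S] (e : ℕ → S), IsCompletion σ S e →
      ∃ es : ℕ → StrongDual ℝ S, (∀ i j, es i (e j) = if i = j then 1 else 0) ∧
        ∃ N : StrongDual ℝ S → ℝ, IsRenorming N ∧ IsOneGreedy e es N := by
  refine ⟨⟨Q80.DG.sg, Q80.DG.sg_schl, fun τ hτ => Q80.DG.schl_unique hτ Q80.DG.sg_schl⟩, fun σ hσ => ?_⟩
  have hσ' : σ = Q80.DG.sg := Q80.DG.schl_unique hσ Q80.DG.sg_schl
  subst hσ'
  refine ⟨Q80.DG.exists_completion, ?_⟩
  intro S _ _ e he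
  obtain ⟨_, hn, hd⟩ := he
  obtain ⟨es, hes⟩ := Q80.DG.exists_coord hn
  refine ⟨es, hes, Q80.DG.ND e, ⟨Q80.DG.ND_nonneg hn, Q80.DG.ND_zero_iff hn hd, Q80.DG.ND_smul hn, Q80.DG.ND_add hn,
    1 / 200, 3, by norm_num, by norm_num, fun f => ⟨?_, Q80.DG.ND_le hn f⟩⟩, ?_⟩
  · have := Q80.DG.norm_le_ND hn hd f
    linarith
  · intro f A hA B b hBA
    exact Q80.DG.ND_greedy hn hes f A B hBA hA b

end Pool.Agent.Results.MP_439cf8_an.GreedyRenorming
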